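import Mathlib

/-!
# Regular sequences of type A and of type B containing two given integers

We show `a(9, 24) = 8` and `b(9, 24) = 7`, so that the equality `a(k₁, k₂) = b(k₁, k₂)` fails in
general.
-/

namespace Pool.Agent.Results.MP_5ec752_co.NineTwentyFour

/-- Type B regular sequences: built from `(1, 1)` by adding at the left or right end the sum of one
or more consecutive entries already present. -/
inductive RegB : List ℕ → Prop
  | base : RegB [1, 1]
  | left (u v w : List ℕ) (hv : v ≠ []) (h : RegB (u ++ v ++ w)) : RegB (v.sum :: (u ++ v ++ w))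
  | right (u v w : List ℕ) (hv : v ≠ []) (h : RegB (u ++ v ++ w)) : RegB ((u ++ v ++ w) ++ [v.sum])

/-- Type A regular sequences: built from `(1, 1)` by adding at the left end the sum of a nonempty
block at the left end, or at the right end the sum of a nonempty block at the right end (so that
the block is immediately adjacent to the new entry). -/
inductive RegA : List ℕ → Prop
  | base : RegA [1, 1]
  | left (v w : List ℕ) (hv : v ≠ []) (h : RegA (v ++ w)) : RegA (v.sum :: (v ++ w))
  | right (u v : List ℕ) (hv : v ≠ []) (h : RegA (u ++ v)) : RegA ((u ++ v) ++ [v.sum])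

/-- `ASet ks`: the lengths of type A regular sequences having a permutation of `ks` as a
subsequence (using distinct positions). -/
def ASet (ks : List ℕ) : Set ℕ := {n | ∃ l, RegA l ∧ l.length = n ∧ ks.Subperm l}

/-- `BSet ks`: the lengths of type B regular sequences having a permutation of `ks` as a
subsequence (using distinct positions). -/
def BSet (ks : List ℕ) : Set ℕ := {n | ∃ l, RegB l ∧ l.length = n ∧ ks.Subperm l}

lemma RegA.regB {l : List ℕ} (h : RegA l) : RegB l := by
  induction h with
  | base => exact RegB.base
  | left v w hv _ ih => exact RegB.left [] v w hv ih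
  | right u v hv _ ih =>
    have := RegB.right u v [] hv (by simpa using ih)
    simpa using this

/-- A regular sequence with `n` terms has sum at most `2 ^ (n - 1)` and entries at most
`2 ^ (n - 2)`. -/
lemma RegB.bound {l : List ℕ} (h : RegB l) :
    2 ≤ l.length ∧ 2 * l.sum ≤ 2 ^ l.length ∧ ∀ x ∈ l, 4 * x ≤ 2 ^ l.length := by
  induction h with
  | base => simp
  | left u v w hv _ ih =>
    obtain ⟨h1, h2, h3⟩ := ih
    have hs : v.sum ≤ (u ++ v ++ w).sum := by simp; omega
    set l := u ++ v ++ w
    refine ⟨by simp; omega, ?_, ?_⟩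
    · simp only [List.sum_cons, List.length_cons, pow_succ]; omega
    · intro x hx
      simp only [List.length_cons, pow_succ]
      rcases List.mem_cons.1 hx with rfl | hx
      · omega
      · have := h3 x hx; omega
  | right u v w hv _ ih =>
    obtain ⟨h1, h2, h3⟩ := ih
    have hs : v.sum ≤ (u ++ v ++ w).sum := by simp; omega
    set l := u ++ v ++ w
    refine ⟨by simp only [List.length_append, List.length_cons, List.length_nil]; omega, ?_, ?_⟩
    · simp only [List.sum_append, List.sum_cons, List.sum_nil, List.length_append,
        List.length_cons, List.length_nil, pow_succ, zero_add]; omega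
    · intro x hx
      simp only [List.length_append, List.length_cons, List.length_nil, zero_add, pow_add, pow_one]
      rcases List.mem_append.1 hx with hx | hx
      · have := h3 x hx; omega
      · have : x = v.sum := by simpa using hx
        omega

/-- All type A extensions of a sequence by one entry. -/
def extA (l : List ℕ) : List (List ℕ) :=
  (List.range l.length).map (fun i => (l.take (i + 1)).sum :: l) ++
    (List.range l.length).map (fun i => l ++ [(l.drop i).sum])

/-- All type A regular sequences with `n + 2` terms. -/
def enumA : ℕ → List (List ℕ)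
  | 0 => [[1, 1]]
  | n + 1 => (enumA n).flatMap extA

lemma RegA.mem_enumA {l : List ℕ} (h : RegA l) : l ∈ enumA (l.length - 2) := by
  induction h with
  | base => simp [enumA]
  | left v w hv h ih =>
    have h2 := h.regB.bound.1
    have : (v.sum :: (v ++ w)).length - 2 = ((v ++ w).length - 2) + 1 := by
      simp only [List.length_cons]; omega
    rw [this, enumA, List.mem_flatMap]
    refine ⟨_, ih, ?_⟩
    rw [extA, List.mem_append]
    left
    rw [List.mem_map]
    have hl : 0 < v.length := List.length_pos_iff.2 hv
    refine ⟨v.length - 1, ?_, ?_⟩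
    · rw [List.mem_range, List.length_append]; omega
    · rw [show v.length - 1 + 1 = v.length by omega, List.take_left']
      rfl
  | right u v hv h ih =>
    have h2 := h.regB.bound.1
    have : ((u ++ v) ++ [v.sum]).length - 2 = ((u ++ v).length - 2) + 1 := by
      simp only [List.length_append, List.length_cons, List.length_nil] at h2 ⊢; omega
    rw [this, enumA, List.mem_flatMap]
    refine ⟨_, ih, ?_⟩
    rw [extA, List.mem_append]
    right
    rw [List.mem_map]
    have hl : 0 < v.length := List.length_pos_iff.2 hv
    refine ⟨u.length, ?_, ?_⟩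
    · rw [List.mem_range, List.length_append]; omega
    · rw [List.drop_left']
      rfl

lemma enum_check : (enumA 5).all (fun l => !(l.contains 24 && l.contains 9)) = true := by
  decide +kernel

/-- A type A regular sequence with `24` and `9`. -/
lemma regA_example : RegA [24, 6, 4, 2, 1, 1, 1, 9] := by
  have h3 : RegA [1, 1, 1] := RegA.left [1] [1] (by simp) RegA.base
  have h4 : RegA [2, 1, 1, 1] := RegA.left [1, 1] [1] (by simp) h3
  have h5 : RegA [4, 2, 1, 1, 1] := RegA.left [2, 1, 1] [1] (by simp) h4
  have h6 : RegA [6, 4, 2, 1, 1, 1] := RegA.left [4, 2] [1, 1, 1] (by simp) h5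
  have h7 : RegA [6, 4, 2, 1, 1, 1, 9] := RegA.right [6] [4, 2, 1, 1, 1] (by simp) h6
  exact RegA.left [6, 4, 2, 1, 1, 1, 9] [] (by simp) h7

/-- A type B regular sequence with `24` and `9`. -/
lemma regB_example : RegB [24, 7, 1, 1, 2, 4, 9] := by
  have h3 : RegB [1, 1, 2] := RegB.right [] [1, 1] [] (by simp) RegB.base
  have h4 : RegB [1, 1, 2, 4] := RegB.right [] [1, 1, 2] [] (by simp) h3
  have h5 : RegB [7, 1, 1, 2, 4] := RegB.left [1] [1, 2, 4] [] (by simp) h4
  have h6 : RegB [7, 1, 1, 2, 4, 9] := RegB.right [] [7, 1, 1] [2, 4] (by simp) h5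
  exact RegB.left [] [7, 1, 1, 2, 4, 9] [] (by simp) h6

lemma RegB.seven_le {l : List ℕ} (h : RegB l) (h24 : 24 ∈ l) : 7 ≤ l.length := by
  have h1 := h.bound.2.2 24 h24
  by_contra hlt
  have h2 : 2 ^ l.length ≤ 2 ^ 6 := Nat.pow_le_pow_right (by norm_num) (by omega)
  omega

lemma isLeast_B : IsLeast (BSet [9, 24]) 7 := by
  refine ⟨⟨_, regB_example, rfl, ?_⟩, ?_⟩
  · decide
  · rintro n ⟨l, hl, rfl, hs⟩
    exact hl.seven_le (hs.subset (by simp))

lemma isLeast_A : IsLeast (ASet [9, 24]) 8 := by
  refine ⟨⟨_, regA_example, rfl, ?_⟩, ?_⟩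
  · decide
  · rintro n ⟨l, hl, rfl, hs⟩
    have h24 : 24 ∈ l := hs.subset (by simp)
    have h9 : 9 ∈ l := hs.subset (by simp)
    have h7 := hl.regB.seven_le h24
    by_contra hlt
    have h5 : l.length - 2 = 5 := by omega
    have hm := hl.mem_enumA
    rw [h5] at hm
    have := List.all_eq_true.1 enum_check l hm
    simp [h24, h9] at this

/-- **`a(k₁, k₂) = b(k₁, k₂)` fails in general**: for `(k₁, k₂) = (9, 24)` the least length of a
type A regular sequence containing both integers is `8`, while the least length of a type B
regular sequence containing both integers is `7`. -/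
theorem result : ∃ k₁ k₂ a b : ℕ, 0 < k₁ ∧ 0 < k₂ ∧ IsLeast (ASet [k₁, k₂]) a ∧
    IsLeast (BSet [k₁, k₂]) b ∧ b < a :=
  ⟨9, 24, 8, 7, by norm_num, by norm_num, isLeast_A, isLeast_B, by norm_num⟩

end Pool.Agent.Results.MP_5ec752_co.NineTwentyFour
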